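import Pool.Agent.H637W.Had
import Pool.Agent.H637W.Gam

/-!
Zeros of the two-gamma Wright function: a necessary condition (log-concavity of the gamma
quotients) and two parameter regions where some zero is not real and negative.
-/

set_option autoImplicit false

namespace Pool.Agent.Results.MP_8382de_an.LogConcavity

open Complex Filter Topology Pool.Agent.H637W

/-- `Γ(ak+1) Γ(bk+1) / Γ(ck+d+1)` -/
noncomputable def gam (a b c d : ℝ) (k : ℕ) : ℝ :=
  Real.Gamma (a * k + 1) * Real.Gamma (b * k + 1) / Real.Gamma (c * k + d + 1)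

/-- The function `Φ_{a,b,c,d}`. -/
noncomputable def Phi (a b c d : ℝ) (x : ℂ) : ℂ :=
  ∑' k : ℕ, ((Real.Gamma (a * k + 1) * Real.Gamma (b * k + 1) / Real.Gamma (c * k + d + 1) : ℝ) : ℂ) *
    (x ^ k / (k.factorial : ℂ))

/-- Every complex zero of `Φ_{a,b,c,d}` is real and negative. -/
def OnlyRealNegativeZeros (a b c d : ℝ) : Prop :=
  ∀ x : ℂ, Phi a b c d x = 0 → x.im = 0 ∧ x.re < 0

section basics

variable {a b c d : ℝ}

theorem gam_pos (ha : 0 < a) (hb : 0 < b) (hc : 0 < c) (hd : 0 < d) (k : ℕ) :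
    0 < gam a b c d k := by
  unfold gam
  have h1 : 0 < Real.Gamma (a * k + 1) := Real.Gamma_pos_of_pos (by positivity)
  have h2 : 0 < Real.Gamma (b * k + 1) := Real.Gamma_pos_of_pos (by positivity)
  have h3 : 0 < Real.Gamma (c * k + d + 1) := Real.Gamma_pos_of_pos (by positivity)
  positivity

theorem gam_ratio (ha : 0 < a) (hb : 0 < b) (hc : 0 < c) (hd : 0 < d) (k : ℕ) :
    gam a b c d (k + 1) ≤ gam a b c d k *
      ((a * k + 1 + a) ^ a * (b * k + 1 + b) ^ b / (c * k + d) ^ c) := by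
  have e1 := gup (x := a * k + 1) (s := a) (by positivity) ha
  have e2 := gup (x := b * k + 1) (s := b) (by positivity) hb
  have e3 := glow (x := c * k + d + 1) (s := c) (by
    have : (0 : ℝ) ≤ c * k := by positivity
    linarith) hc
  rw [show c * (k : ℝ) + d + 1 - 1 = c * k + d by ring] at e3
  have h1 : 0 < Real.Gamma (a * k + 1) := Real.Gamma_pos_of_pos (by positivity)
  have h2 : 0 < Real.Gamma (b * k + 1) := Real.Gamma_pos_of_pos (by positivity)
  have h3 : 0 < Real.Gamma (c * k + d + 1) := Real.Gamma_pos_of_pos (by positivity)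
  have h4 : 0 < Real.Gamma (b * k + 1 + b) := Real.Gamma_pos_of_pos (by positivity)
  unfold gam
  push_cast
  rw [show a * ((k : ℝ) + 1) + 1 = a * k + 1 + a by ring,
    show b * ((k : ℝ) + 1) + 1 = b * k + 1 + b by ring,
    show c * ((k : ℝ) + 1) + d + 1 = c * k + d + 1 + c by ring]
  calc Real.Gamma (a * k + 1 + a) * Real.Gamma (b * k + 1 + b) / Real.Gamma (c * k + d + 1 + c)
      ≤ (Real.Gamma (a * k + 1) * (a * k + 1 + a) ^ a) *
          (Real.Gamma (b * k + 1) * (b * k + 1 + b) ^ b) /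
          (Real.Gamma (c * k + d + 1) * (c * k + d) ^ c) := by
        apply div_le_div₀ (by positivity) _ (by positivity) e3
        exact mul_le_mul e1 e2 h4.le (by positivity)
    _ = _ := by
        have : (c * (k : ℝ) + d) ^ c ≠ 0 := by positivity
        field_simp

theorem ratio_tendsto (ha : 0 < a) (hb : 0 < b) (hd : 0 < d) (hc : a + b < c) :
    Tendsto (fun k : ℕ => (a * k + 1 + a) ^ a * (b * k + 1 + b) ^ b / (c * k + d) ^ c) atTop
      (𝓝 0) := by
  have hc0 : 0 < c := by linarith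
  set m : ℝ := min c d with hm
  have hm0 : 0 < m := lt_min hc0 hd
  have t1 : Tendsto (fun N : ℕ => (N : ℝ) + 1) atTop atTop :=
    tendsto_atTop_add_const_right _ _ tendsto_natCast_atTop_atTop
  have t2 : Tendsto (fun k : ℕ => ((a + 1) ^ a * (b + 1) ^ b / m ^ c) *
      ((k : ℝ) + 1) ^ (-(c - a - b))) atTop (𝓝 0) := by
    have := ((tendsto_rpow_neg_atTop (y := c - a - b) (by linarith)).comp t1).const_mul
      ((a + 1) ^ a * (b + 1) ^ b / m ^ c)
    simpa using this
  refine squeeze_zero (fun k => by positivity) (fun k => ?_) t2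
  have hk : (0 : ℝ) ≤ k := Nat.cast_nonneg k
  have hk1 : (0 : ℝ) < (k : ℝ) + 1 := by positivity
  have e1 : (a * k + 1 + a) ^ a ≤ (a + 1) ^ a * ((k : ℝ) + 1) ^ a := by
    rw [← Real.mul_rpow (by positivity) hk1.le]
    exact Real.rpow_le_rpow (by positivity) (by nlinarith) ha.le
  have e2 : (b * k + 1 + b) ^ b ≤ (b + 1) ^ b * ((k : ℝ) + 1) ^ b := by
    rw [← Real.mul_rpow (by positivity) hk1.le]
    exact Real.rpow_le_rpow (by positivity) (by nlinarith) hb.le
  have e3 : m ^ c * ((k : ℝ) + 1) ^ c ≤ (c * k + d) ^ c := by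
    rw [← Real.mul_rpow hm0.le hk1.le]
    apply Real.rpow_le_rpow (by positivity) _ hc0.le
    have h1 : m ≤ c := min_le_left _ _
    have h2 : m ≤ d := min_le_right _ _
    nlinarith
  calc (a * k + 1 + a) ^ a * (b * k + 1 + b) ^ b / (c * k + d) ^ c
      ≤ ((a + 1) ^ a * ((k : ℝ) + 1) ^ a) * ((b + 1) ^ b * ((k : ℝ) + 1) ^ b) /
          (m ^ c * ((k : ℝ) + 1) ^ c) := by
        apply div_le_div₀ (by positivity) _ (by positivity) e3
        exact mul_le_mul e1 e2 (by positivity) (by positivity)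
    _ = _ := by
        rw [show -(c - a - b) = a + b - c by ring, Real.rpow_sub hk1, Real.rpow_add hk1]
        have : ((k : ℝ) + 1) ^ c ≠ 0 := by positivity
        have : m ^ c ≠ 0 := by positivity
        field_simp

theorem decay (ha : 0 < a) (hb : 0 < b) (hd : 0 < d) (hc : a + b < c) (ε : ℝ) (hε : 0 < ε) :
    ∃ C : ℝ, 0 ≤ C ∧ ∀ k, gam a b c d k ≤ C * ε ^ k := by
  have hc0 : 0 < c := by linarith
  have hev := (ratio_tendsto ha hb hd hc).eventually (gt_mem_nhds hε)
  obtain ⟨K, hK⟩ := eventually_atTop.1 hev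
  have hstep : ∀ k, K ≤ k → gam a b c d (k + 1) ≤ gam a b c d k * ε := fun k hk =>
    (gam_ratio ha hb hc0 hd k).trans
      (mul_le_mul_of_nonneg_left (hK k hk).le (gam_pos ha hb hc0 hd k).le)
  set C : ℝ := ∑ i ∈ Finset.range (K + 1), gam a b c d i / ε ^ i with hC
  have hC0 : 0 ≤ C := Finset.sum_nonneg fun i _ => by
    have := gam_pos ha hb hc0 hd i
    positivity
  refine ⟨C, hC0, fun k => ?_⟩
  have hsmall : ∀ k, k ≤ K → gam a b c d k ≤ C * ε ^ k := by
    intro k hk
    have h1 : gam a b c d k / ε ^ k ≤ C := by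
      apply Finset.single_le_sum (f := fun i => gam a b c d i / ε ^ i) _
        (Finset.mem_range.2 (by omega))
      intro i _
      have := gam_pos ha hb hc0 hd i
      positivity
    rwa [div_le_iff₀ (by positivity)] at h1
  rcases le_total k K with hk | hk
  · exact hsmall k hk
  · induction k, hk using Nat.le_induction with
    | base => exact hsmall K le_rfl
    | succ n hn ih =>
      calc gam a b c d (n + 1) ≤ gam a b c d n * ε := hstep n hn
        _ ≤ (C * ε ^ n) * ε := mul_le_mul_of_nonneg_right ih hε.le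
        _ = C * ε ^ (n + 1) := by ring

theorem summable_Phi (ha : 0 < a) (hb : 0 < b) (hd : 0 < d) (hc : a + b < c) (x : ℂ) :
    Summable (fun k : ℕ => ‖((gam a b c d k : ℝ) : ℂ) * (x ^ k / (k.factorial : ℂ))‖) := by
  obtain ⟨C, hC0, hC⟩ := decay ha hb hd hc 1 one_pos
  refine Summable.of_nonneg_of_le (fun k => norm_nonneg _) (fun k => ?_)
    ((Real.summable_pow_div_factorial ‖x‖).mul_left C)
  have hp := gam_pos ha hb (show 0 < c by linarith) hd k
  rw [norm_mul, norm_div, norm_pow, Complex.norm_natCast, Complex.norm_real,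
    Real.norm_of_nonneg hp.le]
  have := hC k
  rw [one_pow, mul_one] at this
  exact mul_le_mul_of_nonneg_right this (by positivity)

theorem hasSum_Phi (ha : 0 < a) (hb : 0 < b) (hd : 0 < d) (hc : a + b < c) (x : ℂ) :
    HasSum (fun k : ℕ => ((gam a b c d k : ℝ) : ℂ) * (x ^ k / (k.factorial : ℂ)))
      (Phi a b c d x) :=
  (summable_Phi ha hb hd hc x).of_norm.hasSum

theorem Phi_bound (ha : 0 < a) (hb : 0 < b) (hd : 0 < d) (hc : a + b < c) (ε : ℝ) (hε : 0 < ε) :
    ∃ C : ℝ, ∀ x, ‖Phi a b c d x‖ ≤ C * Real.exp (ε * ‖x‖) := by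
  obtain ⟨C, hC0, hC⟩ := decay ha hb hd hc ε hε
  refine ⟨C, fun x => ?_⟩
  have h1 : HasSum (fun k : ℕ => C * ((ε * ‖x‖) ^ k / (k.factorial : ℝ)))
      (C * Real.exp (ε * ‖x‖)) := by
    have := NormedSpace.expSeries_div_hasSum_exp (ε * ‖x‖)
    rw [← Real.exp_eq_exp_ℝ] at this
    exact this.mul_left C
  rw [← h1.tsum_eq]
  refine (norm_tsum_le_tsum_norm (summable_Phi ha hb hd hc x)).trans ?_
  refine Summable.tsum_le_tsum (fun k => ?_) (summable_Phi ha hb hd hc x) h1.summable
  have hp := gam_pos ha hb (show 0 < c by linarith) hd k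
  have e : ‖((gam a b c d k : ℝ) : ℂ) * (x ^ k / (k.factorial : ℂ))‖ =
      gam a b c d k * (‖x‖ ^ k / (k.factorial : ℝ)) := by
    rw [norm_mul, norm_div, norm_pow, Complex.norm_natCast, Complex.norm_real,
      Real.norm_of_nonneg hp.le]
  rw [e, mul_pow]
  calc gam a b c d k * (‖x‖ ^ k / (k.factorial : ℝ))
      ≤ (C * ε ^ k) * (‖x‖ ^ k / (k.factorial : ℝ)) :=
        mul_le_mul_of_nonneg_right (hC k) (by positivity)
    _ = C * (ε ^ k * ‖x‖ ^ k / (k.factorial : ℝ)) := by ring

theorem Phi_conj (ha : 0 < a) (hb : 0 < b) (hd : 0 < d) (hc : a + b < c) (x : ℂ) :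
    Phi a b c d ((starRingEnd ℂ) x) = (starRingEnd ℂ) (Phi a b c d x) := by
  have h1 := hasSum_Phi ha hb hd hc ((starRingEnd ℂ) x)
  have h2 := Complex.hasSum_conj'.2 (hasSum_Phi ha hb hd hc x)
  refine h1.unique (h2.congr_fun fun k => ?_)
  rw [map_mul, map_div₀, map_pow, Complex.conj_ofReal, map_natCast]

/-- the power series -/
noncomputable def ps (a b c d : ℝ) : FormalMultilinearSeries ℂ ℂ ℂ :=
  FormalMultilinearSeries.ofScalars ℂ
    (fun k : ℕ => ((gam a b c d k : ℝ) : ℂ) / (k.factorial : ℂ))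

theorem ps_apply (n : ℕ) (x : ℂ) :
    ps a b c d n (fun _ => x) = ((gam a b c d n : ℝ) : ℂ) / (n.factorial : ℂ) * x ^ n := by
  unfold ps
  rw [FormalMultilinearSeries.ofScalars_apply_eq, smul_eq_mul]

theorem ps_norm (n : ℕ) :
    ‖ps a b c d n‖ = ‖((gam a b c d n : ℝ) : ℂ) / (n.factorial : ℂ)‖ := by
  unfold ps
  exact FormalMultilinearSeries.ofScalars_norm (𝕜 := ℂ) (E := ℂ)
    (fun k : ℕ => ((gam a b c d k : ℝ) : ℂ) / (k.factorial : ℂ)) n

theorem ps_radius (ha : 0 < a) (hb : 0 < b) (hd : 0 < d) (hc : a + b < c) :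
    (ps a b c d).radius = ⊤ := by
  refine FormalMultilinearSeries.radius_eq_top_of_summable_norm _ fun r => ?_
  have h := summable_Phi ha hb hd hc ((r : ℝ) : ℂ)
  refine h.congr fun n => ?_
  rw [ps_norm, norm_mul, norm_div, norm_div, norm_pow]
  simp
  ring

theorem hfps (ha : 0 < a) (hb : 0 < b) (hd : 0 < d) (hc : a + b < c) :
    HasFPowerSeriesOnBall (Phi a b c d) (ps a b c d) 0 ⊤ := by
  refine ⟨by rw [ps_radius ha hb hd hc], by simp, ?_⟩
  intro y _
  rw [zero_add]
  simp only [ps_apply]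
  refine (hasSum_Phi ha hb hd hc y).congr_fun fun k => ?_
  ring

theorem Phi_diff (ha : 0 < a) (hb : 0 < b) (hd : 0 < d) (hc : a + b < c) :
    Differentiable ℂ (Phi a b c d) := fun _ =>
  (hfps ha hb hd hc).differentiableOn.differentiableAt (by simp)

theorem Phi_deriv (ha : 0 < a) (hb : 0 < b) (hd : 0 < d) (hc : a + b < c) (n : ℕ) :
    iteratedDeriv n (Phi a b c d) 0 = ((gam a b c d n : ℝ) : ℂ) := by
  have h := (hfps ha hb hd hc).factorial_smul 1 n
  rw [← iteratedDeriv_eq_iteratedFDeriv, ps_apply, one_pow, mul_one, nsmul_eq_mul] at h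
  rw [← h]
  have h1 : (n.factorial : ℂ) ≠ 0 := by exact_mod_cast n.factorial_ne_zero
  field_simp

/-- log-concavity -/
theorem necessary (ha : 0 < a) (hb : 0 < b) (hd : 0 < d) (hc : a + b < c)
    (h : OnlyRealNegativeZeros a b c d) (k : ℕ) :
    gam a b c d k * gam a b c d (k + 2) ≤ gam a b c d (k + 1) ^ 2 :=
  turan (Phi a b c d) (Phi_diff ha hb hd hc) (gam a b c d)
    (gam_pos ha hb (by linarith) hd 0).ne' (Phi_deriv ha hb hd hc) (Phi_conj ha hb hd hc)
    (Phi_bound ha hb hd hc) (fun x hx => (h x hx).1) k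

/-- the condition for `k = 0`, in explicit form -/
theorem explicit (ha : 0 < a) (hb : 0 < b) (hd : 0 < d) (hc : a + b < c)
    (h : OnlyRealNegativeZeros a b c d) :
    Real.Gamma (2 * a + 1) * Real.Gamma (2 * b + 1) ≤
      (Real.Gamma (a + 1) * Real.Gamma (b + 1)) ^ 2 * ((2 * c + d + 1) / d) ^ c := by
  have hc0 : 0 < c := by linarith
  have h1 := necessary ha hb hd hc h 0
  unfold gam at h1
  simp only [Nat.cast_zero, mul_zero, zero_add, Real.Gamma_one, mul_one, Nat.cast_one,
    Nat.cast_ofNat] at h1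
  rw [mul_comm a 2, mul_comm b 2, mul_comm c 2] at h1
  have e1 := gup (x := c + d + 1) (s := c) (by linarith) hc0
  have e2 := glow (x := d + 1) (s := c) (by linarith) hc0
  rw [show c + d + 1 + c = 2 * c + d + 1 by ring] at e1
  rw [show d + 1 - 1 = d by ring, show d + 1 + c = c + d + 1 by ring] at e2
  have p1 : 0 < Real.Gamma (d + 1) := Real.Gamma_pos_of_pos (by linarith)
  have p2 : 0 < Real.Gamma (c + d + 1) := Real.Gamma_pos_of_pos (by linarith)
  have p3 : 0 < Real.Gamma (2 * c + d + 1) := Real.Gamma_pos_of_pos (by linarith)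
  have p4 : 0 < Real.Gamma (a + 1) * Real.Gamma (b + 1) := mul_pos
    (Real.Gamma_pos_of_pos (by linarith)) (Real.Gamma_pos_of_pos (by linarith))
  have p5 : 0 < d ^ c := by positivity
  have p6 : 0 < (2 * c + d + 1) ^ c := by positivity
  -- `h1 : 1 / Γ(d+1) * (G2 / Γ(2c+d+1)) ≤ (G1 / Γ(c+d+1)) ^ 2`
  set G2 : ℝ := Real.Gamma (2 * a + 1) * Real.Gamma (2 * b + 1) with hG2
  set G1 : ℝ := Real.Gamma (a + 1) * Real.Gamma (b + 1) with hG1
  have h2 : G2 * Real.Gamma (c + d + 1) ^ 2 ≤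
      G1 ^ 2 * (Real.Gamma (d + 1) * Real.Gamma (2 * c + d + 1)) := by
    rw [div_pow, div_mul_div_comm, div_le_div_iff₀ (by positivity) (by positivity)] at h1
    linarith
  have h3 : Real.Gamma (d + 1) * Real.Gamma (2 * c + d + 1) * d ^ c ≤
      Real.Gamma (c + d + 1) ^ 2 * (2 * c + d + 1) ^ c := by
    calc Real.Gamma (d + 1) * Real.Gamma (2 * c + d + 1) * d ^ c
        = (Real.Gamma (d + 1) * d ^ c) * Real.Gamma (2 * c + d + 1) := by ring
      _ ≤ Real.Gamma (c + d + 1) * (Real.Gamma (c + d + 1) * (2 * c + d + 1) ^ c) :=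
          mul_le_mul e2 e1 p3.le p2.le
      _ = _ := by ring
  rw [Real.div_rpow (by linarith) hd.le]
  have h4 : G2 * Real.Gamma (c + d + 1) ^ 2 * d ^ c ≤
      G1 ^ 2 * (Real.Gamma (c + d + 1) ^ 2 * (2 * c + d + 1) ^ c) := by
    calc G2 * Real.Gamma (c + d + 1) ^ 2 * d ^ c
        ≤ (G1 ^ 2 * (Real.Gamma (d + 1) * Real.Gamma (2 * c + d + 1))) * d ^ c :=
          mul_le_mul_of_nonneg_right h2 p5.le
      _ = G1 ^ 2 * (Real.Gamma (d + 1) * Real.Gamma (2 * c + d + 1) * d ^ c) := by ring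
      _ ≤ _ := mul_le_mul_of_nonneg_left h3 (by positivity)
  have h5 : (G2 * d ^ c) * Real.Gamma (c + d + 1) ^ 2 ≤
      (G1 ^ 2 * (2 * c + d + 1) ^ c) * Real.Gamma (c + d + 1) ^ 2 := by linarith
  have h6 := le_of_mul_le_mul_right h5 (by positivity)
  rw [mul_div_assoc', le_div_iff₀ p5]
  exact h6

/-- for fixed `a, b, c` all large `d` are excluded -/
theorem large_d (ha : 0 < a) (hb : 0 < b) (hc : a + b < c) :
    ∃ D : ℝ, ∀ d : ℝ, D < d → ¬ OnlyRealNegativeZeros a b c d := by
  have hc0 : 0 < c := by linarith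
  have g1 := gamma_sq_lt ha
  have g2 := gamma_sq_lt hb
  have p1 : 0 < Real.Gamma (a + 1) := Real.Gamma_pos_of_pos (by linarith)
  have p2 : 0 < Real.Gamma (b + 1) := Real.Gamma_pos_of_pos (by linarith)
  have p3 : 0 < Real.Gamma (2 * a + 1) := Real.Gamma_pos_of_pos (by linarith)
  have hlt : (Real.Gamma (a + 1) * Real.Gamma (b + 1)) ^ 2 <
      Real.Gamma (2 * a + 1) * Real.Gamma (2 * b + 1) := by
    rw [mul_pow]
    exact mul_lt_mul'' g1 g2 (by positivity) (by positivity)
  have ht : Tendsto (fun d : ℝ => (Real.Gamma (a + 1) * Real.Gamma (b + 1)) ^ 2 *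
      ((2 * c + d + 1) / d) ^ c) atTop
      (𝓝 ((Real.Gamma (a + 1) * Real.Gamma (b + 1)) ^ 2 * (1 : ℝ) ^ c)) := by
    apply Tendsto.const_mul
    have h1 : Tendsto (fun d : ℝ => (2 * c + d + 1) / d) atTop (𝓝 1) := by
      have h2 : Tendsto (fun d : ℝ => (2 * c + 1) * d⁻¹ + 1) atTop (𝓝 ((2 * c + 1) * 0 + 1)) :=
        (tendsto_inv_atTop_zero.const_mul _).add_const _
      rw [mul_zero, zero_add] at h2
      refine h2.congr' ?_
      filter_upwards [eventually_gt_atTop 0] with d hd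
      field_simp
      ring
    exact h1.rpow_const (Or.inl one_ne_zero)
  rw [Real.one_rpow, mul_one] at ht
  obtain ⟨D, hD⟩ := eventually_atTop.1 (ht.eventually (gt_mem_nhds hlt))
  refine ⟨max D 0, fun d hd h => ?_⟩
  have h1 := explicit ha hb (lt_of_le_of_lt (le_max_right _ _) hd) hc h
  have h2 := hD d (le_of_lt (lt_of_le_of_lt (le_max_left _ _) hd))
  linarith

/-! ### `c` close to `a + b` -/

theorem am_gm (ha : 0 < a) (hb : 0 < b) {t : ℝ} (ht : 0 ≤ t) (ht1 : t ≤ 1) :
    t ^ a * (1 - t) ^ b ≤ (a / (a + b)) ^ a * (b / (a + b)) ^ b := by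
  have hab : 0 < a + b := by linarith
  have h := Real.geom_mean_le_arith_mean2_weighted (w₁ := a / (a + b)) (w₂ := b / (a + b))
    (p₁ := t / (a / (a + b))) (p₂ := (1 - t) / (b / (a + b))) (by positivity) (by positivity)
    (by positivity) (div_nonneg (by linarith) (by positivity)) (by field_simp)
  have e : a / (a + b) * (t / (a / (a + b))) + b / (a + b) * ((1 - t) / (b / (a + b))) = 1 := by
    field_simp
    ring
  rw [e] at h
  have h1 : 0 ≤ t / (a / (a + b)) := by positivity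
  have h2 : 0 ≤ (1 - t) / (b / (a + b)) := div_nonneg (by linarith) (by positivity)
  have h3 := Real.rpow_le_rpow (by positivity) h hab.le
  rw [Real.one_rpow, Real.mul_rpow (by positivity) (by positivity), ← Real.rpow_mul h1,
    ← Real.rpow_mul h2, div_mul_cancel₀ _ hab.ne', div_mul_cancel₀ _ hab.ne'] at h3
  have e1 : (t / (a / (a + b))) ^ a = t ^ a / (a / (a + b)) ^ a :=
    Real.div_rpow ht (by positivity) a
  have e2 : ((1 - t) / (b / (a + b))) ^ b = (1 - t) ^ b / (b / (a + b)) ^ b :=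
    Real.div_rpow (by linarith) (by positivity) b
  rw [e1, e2, div_mul_div_comm, div_le_one (by positivity)] at h3
  exact h3

theorem beta_le (ha : 0 < a) (hb : 0 < b) (k : ℕ) :
    Real.Gamma (a * k + 1) * Real.Gamma (b * k + 1) ≤
      Real.Gamma ((a + b) * k + 2) * ((a / (a + b)) ^ a * (b / (a + b)) ^ b) ^ k := by
  rcases Nat.eq_zero_or_pos k with rfl | hk
  · simp
  have hk0 : (0 : ℝ) < k := by exact_mod_cast hk
  set q : ℝ := (a / (a + b)) ^ a * (b / (a + b)) ^ b with hq
  have h := Complex.Gamma_mul_Gamma_eq_betaIntegral (s := ((a * k + 1 : ℝ) : ℂ))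
    (t := ((b * k + 1 : ℝ) : ℂ)) (by rw [Complex.ofReal_re]; positivity)
    (by rw [Complex.ofReal_re]; positivity)
  have e1 : ((a * k + 1 : ℝ) : ℂ) + ((b * k + 1 : ℝ) : ℂ) = (((a + b) * k + 2 : ℝ) : ℂ) := by
    push_cast
    ring
  rw [e1, Complex.Gamma_ofReal, Complex.Gamma_ofReal, Complex.Gamma_ofReal] at h
  have hB : ‖Complex.betaIntegral ((a * k + 1 : ℝ) : ℂ) ((b * k + 1 : ℝ) : ℂ)‖ ≤ q ^ k := by
    unfold Complex.betaIntegral
    have := intervalIntegral.norm_integral_le_of_norm_le_const (a := (0 : ℝ)) (b := 1) (C := q ^ k)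
      (f := fun x : ℝ => (x : ℂ) ^ (((a * k + 1 : ℝ) : ℂ) - 1) *
        (1 - (x : ℂ)) ^ (((b * k + 1 : ℝ) : ℂ) - 1)) ?_
    · simpa using this
    · intro x hx
      rw [Set.uIoc_of_le zero_le_one] at hx
      have hx0 : 0 < x := hx.1
      have hx1 : x ≤ 1 := hx.2
      rw [norm_mul]
      have n1 : ‖(x : ℂ) ^ (((a * k + 1 : ℝ) : ℂ) - 1)‖ = x ^ (a * k) := by
        rw [Complex.norm_cpow_eq_rpow_re_of_pos hx0]
        congr 1
        simp
      have n2 : ‖(1 - (x : ℂ)) ^ (((b * k + 1 : ℝ) : ℂ) - 1)‖ = (1 - x) ^ (b * k) := by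
        have e2 : (1 - (x : ℂ)) = (((1 - x : ℝ)) : ℂ) := by push_cast; ring
        rw [e2, Complex.norm_cpow_eq_rpow_re_of_nonneg (by linarith)]
        · congr 1
          simp
        · simp
          exact ⟨hb.ne', by omega⟩
      rw [n1, n2, Real.rpow_mul hx0.le, Real.rpow_mul (by linarith), Real.rpow_natCast,
        Real.rpow_natCast, ← mul_pow]
      apply pow_le_pow_left₀ _ (am_gm ha hb hx0.le hx1)
      have : 0 ≤ 1 - x := by linarith
      positivity
  have g1 : 0 < Real.Gamma (a * k + 1) := Real.Gamma_pos_of_pos (by positivity)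
  have g2 : 0 < Real.Gamma (b * k + 1) := Real.Gamma_pos_of_pos (by positivity)
  have g3 : 0 < Real.Gamma ((a + b) * k + 2) := Real.Gamma_pos_of_pos (by positivity)
  have h2 := congrArg norm h
  rw [norm_mul, norm_mul, Complex.norm_real, Complex.norm_real, Complex.norm_real,
    Real.norm_of_nonneg g1.le, Real.norm_of_nonneg g2.le, Real.norm_of_nonneg g3.le] at h2
  rw [h2]
  exact mul_le_mul_of_nonneg_left hB g3.le

theorem ratio_low (ha : 0 < a) (hb : 0 < b) (hd : 0 < d) (k : ℕ) (hk : 0 < k) :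
    gam a b (a + b) d k * ((a * k / ((a + b) * k + (d + 1 + (a + b)))) ^ a *
      (b * k / ((a + b) * k + (d + 1 + (a + b)))) ^ b) ≤ gam a b (a + b) d (k + 1) := by
  have hk0 : (0 : ℝ) < k := by exact_mod_cast hk
  have hab : 0 < a + b := by linarith
  have e1 := glow (x := a * k + 1) (s := a) (by
    have : (0 : ℝ) < a * k := by positivity
    linarith) ha
  have e2 := glow (x := b * k + 1) (s := b) (by
    have : (0 : ℝ) < b * k := by positivity
    linarith) hb
  have e3 := gup (x := (a + b) * k + d + 1) (s := a + b) (by positivity) hab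
  rw [add_sub_cancel_right] at e1 e2
  have h1 : 0 < Real.Gamma (a * k + 1) := Real.Gamma_pos_of_pos (by positivity)
  have h2 : 0 < Real.Gamma (b * k + 1) := Real.Gamma_pos_of_pos (by positivity)
  have h3 : 0 < Real.Gamma ((a + b) * k + d + 1) := Real.Gamma_pos_of_pos (by positivity)
  have h4 : 0 < Real.Gamma (a * k + 1 + a) := Real.Gamma_pos_of_pos (by positivity)
  have h5 : 0 < Real.Gamma ((a + b) * k + d + 1 + (a + b)) := Real.Gamma_pos_of_pos (by positivity)
  set E : ℝ := (a + b) * k + (d + 1 + (a + b)) with hE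
  have hE0 : 0 < E := by positivity
  have hEe : (a + b) * (k : ℝ) + d + 1 + (a + b) = E := by rw [hE]; ring
  unfold gam
  push_cast
  rw [show a * ((k : ℝ) + 1) + 1 = a * k + 1 + a by ring,
    show b * ((k : ℝ) + 1) + 1 = b * k + 1 + b by ring,
    show (a + b) * ((k : ℝ) + 1) + d + 1 = (a + b) * k + d + 1 + (a + b) by ring]
  rw [hEe] at e3 h5 ⊢
  rw [Real.div_rpow (by positivity) hE0.le, Real.div_rpow (by positivity) hE0.le]
  calc Real.Gamma (a * k + 1) * Real.Gamma (b * k + 1) / Real.Gamma ((a + b) * k + d + 1) *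
        ((a * k) ^ a / E ^ a * ((b * k) ^ b / E ^ b))
      = (Real.Gamma (a * k + 1) * (a * k) ^ a) * (Real.Gamma (b * k + 1) * (b * k) ^ b) /
          (Real.Gamma ((a + b) * k + d + 1) * E ^ (a + b)) := by
        rw [Real.rpow_add hE0]
        have : E ^ a ≠ 0 := by positivity
        have : E ^ b ≠ 0 := by positivity
        field_simp
    _ ≤ Real.Gamma (a * k + 1 + a) * Real.Gamma (b * k + 1 + b) / Real.Gamma E := by
        apply div_le_div₀ (by positivity) _ h5 e3
        exact mul_le_mul e1 e2 (by positivity) h4.le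

theorem low_tendsto (ha : 0 < a) (hb : 0 < b) (hd : 0 < d) :
    Tendsto (fun k : ℕ => (a * k / ((a + b) * k + (d + 1 + (a + b)))) ^ a *
      (b * k / ((a + b) * k + (d + 1 + (a + b)))) ^ b) atTop
      (𝓝 ((a / (a + b)) ^ a * (b / (a + b)) ^ b)) := by
  have hab : 0 < a + b := by linarith
  have key : ∀ s : ℝ, Tendsto (fun k : ℕ => s * k / ((a + b) * k + (d + 1 + (a + b)))) atTop
      (𝓝 (s / (a + b))) := by
    intro s
    have h1 : Tendsto (fun k : ℕ => s / ((a + b) + (d + 1 + (a + b)) * ((k : ℝ))⁻¹)) atTop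
        (𝓝 (s / ((a + b) + (d + 1 + (a + b)) * 0))) := by
      apply Tendsto.div tendsto_const_nhds _ (by simp; exact hab.ne')
      exact (((tendsto_inv_atTop_zero.comp tendsto_natCast_atTop_atTop).const_mul _)).const_add _
    rw [mul_zero, add_zero] at h1
    refine h1.congr' ?_
    filter_upwards [eventually_gt_atTop 0] with k hk
    have hk0 : (0 : ℝ) < k := by exact_mod_cast hk
    field_simp
  exact ((key a).rpow_const (Or.inr ha.le)).mul ((key b).rpow_const (Or.inr hb.le))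

/-- at `c = a + b` and `d > 1` log-concavity fails somewhere -/
theorem fails (ha : 0 < a) (hb : 0 < b) (hd : 1 < d) :
    ∃ k : ℕ, gam a b (a + b) d (k + 1) ^ 2 < gam a b (a + b) d k * gam a b (a + b) d (k + 2) := by
  by_contra hcon
  push Not at hcon
  have hab : 0 < a + b := by linarith
  have hd0 : 0 < d := by linarith
  set q : ℝ := (a / (a + b)) ^ a * (b / (a + b)) ^ b with hq
  have hq0 : 0 < q := by positivity
  set v : ℕ → ℝ := gam a b (a + b) d with hv
  have hvpos : ∀ k, 0 < v k := fun k => gam_pos ha hb hab hd0 k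
  have hanti : Antitone (fun k => v (k + 1) / v k) := by
    apply antitone_nat_of_succ_le
    intro k
    show v (k + 1 + 1) / v (k + 1) ≤ v (k + 1) / v k
    rw [div_le_div_iff₀ (hvpos _) (hvpos _)]
    have := hcon k
    nlinarith
  have hrq : ∀ k, q ≤ v (k + 1) / v k := by
    intro k
    refine le_of_tendsto (low_tendsto ha hb hd0) ?_
    filter_upwards [eventually_ge_atTop (max k 1)] with j hj
    have h1 : v (j + 1) / v j ≤ v (k + 1) / v k := hanti (le_trans (le_max_left _ _) hj)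
    refine le_trans ?_ h1
    rw [le_div_iff₀ (hvpos _)]
    have := ratio_low ha hb hd0 j (by have := le_trans (le_max_right k 1) hj; omega)
    rw [mul_comm] at this
    exact this
  have hlow : ∀ k, v 0 * q ^ k ≤ v k := by
    intro k
    induction k with
    | zero => simp
    | succ k ih =>
      have h1 := hrq k
      rw [le_div_iff₀ (hvpos _)] at h1
      calc v 0 * q ^ (k + 1) = q * (v 0 * q ^ k) := by ring
        _ ≤ q * v k := mul_le_mul_of_nonneg_left ih hq0.le
        _ ≤ v (k + 1) := h1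
  have hup : ∀ k : ℕ, v k * ((a + b) * k + 1) ^ (d - 1) ≤ q ^ k := by
    intro k
    have h1 := beta_le ha hb k
    have h2 := glow (x := (a + b) * k + 2) (s := d - 1) (by
      have : (0 : ℝ) ≤ (a + b) * k := by positivity
      linarith) (by linarith)
    rw [show (a + b) * (k : ℝ) + 2 - 1 = (a + b) * k + 1 by ring,
      show (a + b) * (k : ℝ) + 2 + (d - 1) = (a + b) * k + d + 1 by ring] at h2
    have g3 : 0 < Real.Gamma ((a + b) * k + 2) := Real.Gamma_pos_of_pos (by positivity)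
    have g4 : 0 < Real.Gamma ((a + b) * k + d + 1) := Real.Gamma_pos_of_pos (by positivity)
    have g5 : (0 : ℝ) < ((a + b) * k + 1) ^ (d - 1) := by positivity
    show Real.Gamma (a * k + 1) * Real.Gamma (b * k + 1) / Real.Gamma ((a + b) * k + d + 1) *
      ((a + b) * k + 1) ^ (d - 1) ≤ q ^ k
    rw [div_mul_eq_mul_div, div_le_iff₀ g4]
    calc Real.Gamma (a * k + 1) * Real.Gamma (b * k + 1) * ((a + b) * k + 1) ^ (d - 1)
        ≤ (Real.Gamma ((a + b) * k + 2) * q ^ k) * ((a + b) * k + 1) ^ (d - 1) :=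
          mul_le_mul_of_nonneg_right h1 g5.le
      _ = q ^ k * (Real.Gamma ((a + b) * k + 2) * ((a + b) * k + 1) ^ (d - 1)) := by ring
      _ ≤ q ^ k * Real.Gamma ((a + b) * k + d + 1) :=
          mul_le_mul_of_nonneg_left h2 (by positivity)
  have hall : ∀ k : ℕ, v 0 * ((a + b) * k + 1) ^ (d - 1) ≤ 1 := by
    intro k
    have h1 := hup k
    have h2 := hlow k
    have g5 : (0 : ℝ) < ((a + b) * k + 1) ^ (d - 1) := by positivity
    have h3 : (v 0 * ((a + b) * k + 1) ^ (d - 1)) * q ^ k ≤ 1 * q ^ k := by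
      calc (v 0 * ((a + b) * k + 1) ^ (d - 1)) * q ^ k
          = (v 0 * q ^ k) * ((a + b) * k + 1) ^ (d - 1) := by ring
        _ ≤ v k * ((a + b) * k + 1) ^ (d - 1) := mul_le_mul_of_nonneg_right h2 g5.le
        _ ≤ 1 * q ^ k := by rw [one_mul]; exact h1
    exact le_of_mul_le_mul_right h3 (by positivity)
  have htop : Tendsto (fun k : ℕ => v 0 * ((a + b) * k + 1) ^ (d - 1)) atTop atTop := by
    apply Tendsto.const_mul_atTop (hvpos 0)
    apply (tendsto_rpow_atTop (show 0 < d - 1 by linarith)).comp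
    exact tendsto_atTop_add_const_right _ _ (tendsto_natCast_atTop_atTop.const_mul_atTop hab)
  obtain ⟨k, hk⟩ := (htop.eventually_gt_atTop 1).exists
  linarith [hall k]

/-- for fixed `a, b` and `d > 1` all `c` close to `a + b` are excluded -/
theorem near_c (ha : 0 < a) (hb : 0 < b) (hd : 1 < d) :
    ∃ c₀ : ℝ, a + b < c₀ ∧ ∀ c : ℝ, a + b < c → c < c₀ → ¬ OnlyRealNegativeZeros a b c d := by
  obtain ⟨k, hk⟩ := fails ha hb hd
  have hab : 0 < a + b := by linarith
  have hcont : ∀ n : ℕ, ContinuousAt (fun c => gam a b c d n) (a + b) := by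
    intro n
    unfold gam
    have hpos : 0 < (a + b) * (n : ℝ) + d + 1 := by positivity
    have hg : ContinuousAt Real.Gamma ((a + b) * (n : ℝ) + d + 1) :=
      (Real.differentiableAt_Gamma fun m => by
        have : (0 : ℝ) ≤ m := Nat.cast_nonneg m
        linarith).continuousAt
    refine ContinuousAt.div continuousAt_const ?_ (Real.Gamma_pos_of_pos hpos).ne'
    exact ContinuousAt.comp (f := fun c : ℝ => c * (n : ℝ) + d + 1) hg (by fun_prop)
  have hev : ∀ᶠ c in 𝓝 (a + b), gam a b c d (k + 1) ^ 2 < gam a b c d k * gam a b c d (k + 2) :=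
    ((hcont (k + 1)).pow 2).eventually_lt ((hcont k).mul (hcont (k + 2))) hk
  obtain ⟨ε, hε, hball⟩ := Metric.eventually_nhds_iff.1 hev
  refine ⟨a + b + ε, by linarith, fun c hc1 hc2 h => ?_⟩
  have h1 := hball (show dist c (a + b) < ε by
    rw [Real.dist_eq, abs_of_pos (by linarith)]
    linarith)
  have h2 := necessary ha hb (by linarith) hc1 h k
  linarith

end basics

/-- Let `a, b > 0`.  (1) If `d > 0`, `c > a + b` and all zeros of `Φ_{a,b,c,d}` are real and
negative, then the sequence `γ_k = Γ(ak+1) Γ(bk+1) / Γ(ck+d+1)` is log-concave, and in particular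
`Γ(2a+1) Γ(2b+1) ≤ (Γ(a+1) Γ(b+1))² ((2c+d+1)/d)^c`.  (2) For every `c > a + b` there is `D` such
that for no `d > D` all zeros are real and negative.  (3) For every `d > 1` there is `c₀ > a + b`
such that for no `c` with `a + b < c < c₀` all zeros are real and negative. -/
theorem result (a b : ℝ) (ha : 0 < a) (hb : 0 < b) :
    (∀ c d : ℝ, 0 < d → a + b < c → OnlyRealNegativeZeros a b c d →
      (∀ k : ℕ, gam a b c d k * gam a b c d (k + 2) ≤ gam a b c d (k + 1) ^ 2) ∧
      Real.Gamma (2 * a + 1) * Real.Gamma (2 * b + 1) ≤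
        (Real.Gamma (a + 1) * Real.Gamma (b + 1)) ^ 2 * ((2 * c + d + 1) / d) ^ c) ∧
    (∀ c : ℝ, a + b < c → ∃ D : ℝ, ∀ d : ℝ, D < d → ¬ OnlyRealNegativeZeros a b c d) ∧
    (∀ d : ℝ, 1 < d → ∃ c₀ : ℝ, a + b < c₀ ∧
      ∀ c : ℝ, a + b < c → c < c₀ → ¬ OnlyRealNegativeZeros a b c d) :=
  ⟨fun _ _ hd hc h => ⟨necessary ha hb hd hc h, explicit ha hb hd hc h⟩,
    fun _ hc => large_d ha hb hc, fun _ hd => near_c ha hb hd⟩

end Pool.Agent.Results.MP_8382de_an.LogConcavity
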