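import Pool.Agent.Results.MP_8382de_an.LogConcavity
import Pool.Agent.H637W.Fin2
import Pool.Agent.H637W.Brom
import Pool.Agent.H637W.K1
import Pool.Agent.H637W.K2
import Pool.Agent.H637W.RepC
import Pool.Agent.H637W.Step
import Pool.Agent.H637W.Inf

/-!
Zeros of the two-gamma Wright function: for `a ≠ b` and `a + b < c < a + b + 1` some zero is not
real and negative, for all `d > 0` outside a finite set.
-/

set_option autoImplicit false

namespace Pool.Agent.Results.MP_8382de_an.ShortRange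

open Complex Filter Topology Pool.Agent.H637W Pool.Agent.H637W.MB Pool.Agent.H637W.MB.F
open Pool.Agent.Results.MP_8382de_an.LogConcavity

variable {a b c d : ℝ}

theorem deriv_hasSum (ha : 0 < a) (hb : 0 < b) (hd : 0 < d) (hc : a + b < c) (x : ℂ) :
    HasSum (fun k : ℕ => (k : ℂ) * (((gam a b c d k : ℝ) : ℂ) * (x ^ k / (k.factorial : ℂ))))
      (x * deriv (Phi a b c d) x) := by
  have hD : Differentiable ℂ (Phi a b c d) := Phi_diff ha hb hd hc
  have hD' : Differentiable ℂ (deriv (Phi a b c d)) := by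
    intro z
    exact ((hD.analyticAt z).deriv).differentiableAt
  have h := Complex.hasSum_taylorSeries_of_entire hD' 0 x
  have h2 := h.mul_left x
  rw [← hasSum_nat_add_iff' 1]
  simp only [Finset.range_one, Finset.sum_singleton, Nat.cast_zero, zero_mul, sub_zero]
  have e : (fun k : ℕ => ((k + 1 : ℕ) : ℂ) * (((gam a b c d (k + 1) : ℝ) : ℂ) *
      (x ^ (k + 1) / ((k + 1).factorial : ℂ)))) =
      (fun n : ℕ => x * ((n.factorial : ℂ)⁻¹ • (x - 0) ^ n •
        iteratedDeriv n (deriv (Phi a b c d)) 0)) := by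
    funext k
    rw [← iteratedDeriv_succ', Phi_deriv ha hb hd hc, sub_zero, smul_eq_mul, smul_eq_mul,
      Nat.factorial_succ]
    have h1 : (k.factorial : ℂ) ≠ 0 := by exact_mod_cast k.factorial_ne_zero
    have h3 : ((k : ℂ) + 1) ≠ 0 := by exact_mod_cast k.succ_ne_zero
    push_cast
    field_simp
    ring
  rw [e]
  exact h2

theorem recur (ha : 0 < a) (hb : 0 < b) (hd : 0 < d) (hc : a + b < c) (x : ℂ) :
    Phi a b c d x = ((d + 1 : ℝ) : ℂ) * Phi a b c (d + 1) x +
      (c : ℂ) * (x * deriv (Phi a b c (d + 1)) x) := by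
  have hd1 : 0 < d + 1 := by linarith
  have h1 := (hasSum_Phi ha hb hd1 hc x).mul_left ((d + 1 : ℝ) : ℂ)
  have h2 := (deriv_hasSum ha hb hd1 hc x).mul_left (c : ℂ)
  have h3 := h1.add h2
  refine (hasSum_Phi ha hb hd hc x).unique ?_
  have e : (fun k : ℕ => ((gam a b c d k : ℝ) : ℂ) * (x ^ k / (k.factorial : ℂ))) =
      fun k : ℕ => ((d + 1 : ℝ) : ℂ) *
        (((gam a b c (d + 1) k : ℝ) : ℂ) * (x ^ k / (k.factorial : ℂ))) +
        (c : ℂ) * ((k : ℂ) *
          (((gam a b c (d + 1) k : ℝ) : ℂ) * (x ^ k / (k.factorial : ℂ)))) := by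
    funext k
    have hc0 : 0 < c := by linarith
    have hp : 0 < c * k + d + 1 := by positivity
    have hG : Real.Gamma (c * k + (d + 1) + 1) = (c * k + d + 1) * Real.Gamma (c * k + d + 1) := by
      rw [show c * (k : ℝ) + (d + 1) + 1 = (c * k + d + 1) + 1 by ring]
      exact Real.Gamma_add_one hp.ne'
    have hg0 : Real.Gamma (c * k + d + 1) ≠ 0 := (Real.Gamma_pos_of_pos hp).ne'
    have key : gam a b c d k = (c * k + d + 1) * gam a b c (d + 1) k := by
      unfold gam
      rw [hG]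
      have := hp.ne'
      field_simp
    rw [key]
    push_cast
    ring
  rw [e]
  exact h3

theorem asy_step (ha : 0 < a) (hb : 0 < b) (hd : 0 < d) (hc : a + b < c) {σ η η' : ℝ} {C : ℂ}
    (hη' : 0 < η') (hlt : η' < η) (hη : η < Real.pi / 2)
    (h : Asy (Phi a b c (d + 1)) σ η C) :
    Asy (Phi a b c d) σ η' ((((d + 1 - c * σ : ℝ)) : ℂ) * C) := by
  have hd1 : 0 < d + 1 := by linarith
  have hc0 : 0 < c := by linarith
  obtain ⟨⟨B, hB⟩, hL⟩ := h
  obtain ⟨⟨B', hB'⟩, hL'⟩ := t_Step (Phi a b c (d + 1)) σ η η' C (Phi_diff ha hb hd1 hc)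
    hη' hlt hη ⟨B, hB⟩ hL
  refine ⟨⟨(d + 1) * B + c * B', fun R φ hR hφ => ?_⟩, fun φ hφ => ?_⟩
  · rw [recur ha hb hd hc]
    have h1 := hB R φ hR (hφ.trans hlt)
    have h2 := hB' R φ hR hφ
    have hR0 : 0 ≤ R ^ σ := by positivity
    set y : ℂ := -((R : ℂ) * cexp (φ * I)) with hy
    calc R ^ σ * ‖((d + 1 : ℝ) : ℂ) * Phi a b c (d + 1) y +
          (c : ℂ) * (y * deriv (Phi a b c (d + 1)) y)‖
        ≤ R ^ σ * (‖((d + 1 : ℝ) : ℂ) * Phi a b c (d + 1) y‖ +
          ‖(c : ℂ) * (y * deriv (Phi a b c (d + 1)) y)‖) := by gcongr; exact norm_add_le _ _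
      _ = (d + 1) * (R ^ σ * ‖Phi a b c (d + 1) y‖) +
          c * (R ^ σ * ‖y * deriv (Phi a b c (d + 1)) y‖) := by
          rw [norm_mul, norm_mul (c : ℂ), Complex.norm_real, Complex.norm_real,
            Real.norm_of_nonneg hd1.le, Real.norm_of_nonneg hc0.le]
          ring
      _ ≤ (d + 1) * B + c * B' := by gcongr
  · have h1 := (hL φ (hφ.trans hlt)).const_mul ((d + 1 : ℝ) : ℂ)
    have h2 := (hL' φ hφ).const_mul (c : ℂ)
    have h3 := h1.add h2
    have e1 : ((d + 1 : ℝ) : ℂ) * (C * cexp (-(σ * φ * I))) +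
        (c : ℂ) * (-(σ : ℂ) * C * cexp (-(σ * φ * I))) =
        (((d + 1 - c * σ : ℝ)) : ℂ) * C * cexp (-(σ * φ * I)) := by
      push_cast; ring
    rw [e1] at h3
    refine h3.congr fun R => ?_
    rw [recur ha hb hd hc]
    ring

theorem asy_all (hb : 0 < b) (hba : b < a) (hc : a + b < c) (hc1 : c < a + b + 1) (n : ℕ) :
    ∀ d : ℝ, 0 < d → 2 + (c - a - b) / a < d + n → (∀ m : ℕ, c / a - d ≠ m + 1) →
      ∃ η : ℝ, 0 < η ∧ η < Real.pi / 2 ∧ ∃ C : ℂ, C ≠ 0 ∧ Asy (Phi a b c d) (1 / a) η C := by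
  have ha : 0 < a := hb.trans hba
  have hp := Real.pi_pos
  induction n with
  | zero =>
    intro d hd hdn _
    have h1 : 1 + (c - a - b) / a < d - 1 := by
      simp only [Nat.cast_zero, add_zero] at hdn; linarith
    have hδ0 : 0 < c - a - b := by linarith
    have hδ1 : c - a - b < 1 := by linarith
    have hη : (c - a - b) * (Real.pi / 2) + (1 - (c - a - b)) * (Real.pi / 4) < Real.pi / 2 := by
      nlinarith
    have hη0 : 0 < (1 - (c - a - b)) * (Real.pi / 4) := by
      have : 0 < 1 - (c - a - b) := by linarith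
      positivity
    obtain ⟨C, hC, hA⟩ := base t_Brom t_K1 t_K2 (t_RepC t_Brom) hb hba hδ0 hδ1 h1 hη0 hη
    refine ⟨_, hη0, ?_, C, hC, ?_⟩
    · have : 0 < (c - a - b) * (Real.pi / 2) := by positivity
      linarith
    · have e : PP a b (a + b + (c - a - b)) (d - 1 + 1) = Phi a b c d := by
        rw [show a + b + (c - a - b) = c by ring, show d - 1 + 1 = d by ring]
        rfl
      rw [e] at hA
      exact hA
  | succ n ih =>
    intro d hd hdn hm
    obtain ⟨η, hη, hη2, C, hC, hA⟩ := ih (d + 1) (by linarith) (by push_cast at hdn; linarith)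
      (fun m hmm => hm (m + 1) (by push_cast; linarith))
    refine ⟨η / 2, by positivity, by linarith, _, ?_, asy_step ha hb hd hc (by positivity)
      (by linarith) hη2 hA⟩
    apply mul_ne_zero _ hC
    have := hm 0
    intro h0
    have h0' : d + 1 - c * (1 / a) = 0 := by exact_mod_cast h0
    apply this
    push_cast
    rw [div_eq_mul_one_div]
    linarith

theorem ev_ne {f : ℂ → ℂ} {σ η : ℝ} {C : ℂ} (hη : 0 < η) (hC : C ≠ 0) (h : Asy f σ η C) :
    ∃ R : ℝ, ∀ r : ℝ, R < r → f (-(r : ℂ)) ≠ 0 := by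
  have h1 := h.2 0 (by simpa using hη)
  have h2 : C * cexp (-(σ * ((0 : ℝ) : ℂ) * I)) ≠ 0 := mul_ne_zero hC (Complex.exp_ne_zero _)
  have h3 := h1.eventually_ne h2
  obtain ⟨R, hR⟩ := eventually_atTop.1 h3
  refine ⟨R, fun r hr h0 => hR r hr.le ?_⟩
  have : (-((r : ℂ) * cexp (((0 : ℝ) : ℂ) * I))) = -(r : ℂ) := by simp
  rw [this, h0, mul_zero]

theorem main (hb : 0 < b) (hba : b < a) (hc : a + b < c) (hc1 : c < a + b + 1) (hd : 0 < d)
    (hm : ∀ m : ℕ, c / a - d ≠ m + 1) : ¬ OnlyRealNegativeZeros a b c d := by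
  intro h
  have ha : 0 < a := hb.trans hba
  obtain ⟨n, hn⟩ := exists_nat_gt (2 + (c - a - b) / a)
  obtain ⟨η, hη, _, C, hC, hA⟩ := asy_all hb hba hc hc1 n d hd (by linarith) hm
  obtain ⟨R, hR⟩ := ev_ne hη hC hA
  obtain ⟨r, hr, h0⟩ := t_Inf (Phi a b c d) (gam a b c d) (Phi_diff ha hb hd hc)
    (gam_pos ha hb (by linarith) hd) (Phi_deriv ha hb hd hc) (Phi_conj ha hb hd hc)
    (Phi_bound ha hb hd hc) h R
  exact hR r hr h0

theorem Phi_symm : Phi a b c d = Phi b a c d := by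
  funext x
  unfold Phi
  congr 1
  funext k
  rw [mul_comm (Real.Gamma (a * k + 1))]

/-- For `a ≠ b` and `a + b < c < a + b + 1` some zero of `Φ_{a,b,c,d}` is not real and negative,
unless `c / max(a,b) - d` is a positive integer. -/
theorem result (a b c d : ℝ) (ha : 0 < a) (hb : 0 < b) (hab : a ≠ b) (hc : a + b < c)
    (hc1 : c < a + b + 1) (hd : 0 < d) (hm : ∀ m : ℕ, c / max a b - d ≠ m + 1) :
    ∃ x : ℂ, Phi a b c d x = 0 ∧ ¬ (x.im = 0 ∧ x.re < 0) := by
  have key : ¬ OnlyRealNegativeZeros a b c d := by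
    rcases lt_or_gt_of_ne hab with h | h
    · rw [max_eq_right h.le] at hm
      have := main (a := b) (b := a) (c := c) (d := d) ha h (by linarith) (by linarith) hd hm
      intro h0
      apply this
      intro x hx
      rw [← Phi_symm] at hx
      exact h0 x hx
    · rw [max_eq_left h.le] at hm
      exact main hb h hc hc1 hd hm
  unfold OnlyRealNegativeZeros at key
  push Not at key
  obtain ⟨x, hx, h1⟩ := key
  exact ⟨x, hx, fun h2 => absurd h2.2 (not_lt.2 (h1 h2.1))⟩

end Pool.Agent.Results.MP_8382de_an.ShortRange
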